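import Mathlib
import Pool.Agent.Mg.F163ab5a.G4fb37a

set_option autoImplicit false

namespace Pool.Agent.Results.MP_163ab5_co.DenseExcess

open Pool.Agent.MP_163ab5_co.K

/-- For `2 ^ (n - 1) < N < 2 ^ n` the least possible largest frequency of a union-closed family of
`N` subsets of an `n`-element set exceeds `1 / 2` by `δ log (n / δ) / n` up to absolute constant
factors, where `δ = (1 - μ) (2 μ - 1)` and `μ = N / 2 ^ n`. -/
theorem result : ∃ c C : ℝ, 0 < c ∧ 0 < C ∧ ∀ n N : ℕ, 2 ^ n < 2 * N → N < 2 ^ n →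
    ∀ δ : ℝ, δ = (1 - (N : ℝ) / 2 ^ n) * (2 * ((N : ℝ) / 2 ^ n) - 1) →
      (∀ A : Finset (Finset (Fin n)), (∀ X ∈ A, ∀ Y ∈ A, X ∪ Y ∈ A) → A.card = N →
        ∃ i : Fin n, (1 / 2 + c * (δ * Real.log ((n : ℝ) / δ) / n)) * N ≤
          ((A.filter (fun X => i ∈ X)).card : ℝ)) ∧
      ∃ A : Finset (Finset (Fin n)), (∀ X ∈ A, ∀ Y ∈ A, X ∪ Y ∈ A) ∧ A.card = N ∧
        ∀ i : Fin n, ((A.filter (fun X => i ∈ X)).card : ℝ) ≤
          (1 / 2 + C * (δ * Real.log ((n : ℝ) / δ) / n)) * N := by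
  refine ⟨1 / 800000, 128, by norm_num, by norm_num, fun n N h1 h2 δ hδ => ⟨fun A hc hN => ?_, ?_⟩⟩
  · subst hN
    obtain ⟨i, hi⟩ := lower hc (δ := δ) (by rwa [Fintype.card_fin]) (by rwa [Fintype.card_fin])
      (by rwa [Fintype.card_fin])
    rw [Fintype.card_fin, bs_eq] at hi
    exact ⟨i, by linarith⟩
  · obtain ⟨A, hc, hN, hi⟩ := upper (ι := Fin n) (N := N) (δ := δ) (by rwa [Fintype.card_fin])
      (by rwa [Fintype.card_fin]) (by rwa [Fintype.card_fin])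
    refine ⟨A, hc, hN, fun i => ?_⟩
    have := hi i
    rw [Fintype.card_fin, bs_eq, hN] at this
    linarith

end Pool.Agent.Results.MP_163ab5_co.DenseExcess
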