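import Mathlib
import Pool.Agent.Mg.F163ab5.G05221c

set_option autoImplicit false

namespace Pool.Agent.Results.MP_163ab5_co.DenseTight

open Pool.Agent.MP_163ab5_co
open scoped Classical

/-- A union-closed family of subsets of a finite set `U` with more than `3 / 8` of all subsets and
with no element in more than half of its members is the power set of `U`, the power set of `U`
minus a point, or the family of subsets that do not separate two given points. -/
theorem result (U : Finset ℕ) (A : Finset (Finset ℕ)) (hU : ∀ X ∈ A, X ⊆ U)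
    (hc : ∀ X ∈ A, ∀ Y ∈ A, X ∪ Y ∈ A) (hd : 3 * 2 ^ U.card < 8 * A.card)
    (hf : ∀ i : ℕ, 2 * (A.filter (fun X => i ∈ X)).card ≤ A.card) :
    A = U.powerset ∨ (∃ a ∈ U, A = (U.erase a).powerset) ∨
      ∃ a ∈ U, ∃ b ∈ U, a ≠ b ∧ A = U.powerset.filter (fun X => a ∈ X ↔ b ∈ X) := by
  let e : Fin U.card → ℕ := fun i => (U.equivFin.symm i).1
  have e1 : Function.Injective e := Subtype.val_injective.comp U.equivFin.symm.injective
  have e2 : ∀ i, e i ∈ U := fun i => (U.equivFin.symm i).2
  have e3 : ∀ a ∈ U, ∃ i, e i = a := fun a ha => ⟨U.equivFin ⟨a, ha⟩, by simp [e]⟩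
  let S : Cube U.card → Finset ℕ := fun x => (Finset.univ.filter fun i => x i = true).image e
  let T : Finset ℕ → Cube U.card := fun X i => decide (e i ∈ X)
  have m1 : ∀ x i, e i ∈ S x ↔ x i = true := fun x i => by simp [S, e1.eq_iff]
  have m2 : ∀ X, X ⊆ U → S (T X) = X := fun X hX => by
    ext a
    constructor
    · intro h
      obtain ⟨i, hi, rfl⟩ := Finset.mem_image.1 h
      simpa [T] using hi
    · intro h
      obtain ⟨i, rfl⟩ := e3 a (hX h)
      simpa [m1, T] using h
  have m3 : ∀ x, T (S x) = x := fun x => funext fun i => by simp [T, m1]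
  have sm : ∀ g : Finset ℕ → ℤ, ∑ x, ind (fun x => S x ∈ A) x * g (S x) = ∑ X ∈ A, g X := by
    intro g
    simp only [ind, ite_mul, one_mul, zero_mul, ← Finset.sum_filter]
    exact Finset.sum_nbij' S T (fun x hx => (Finset.mem_filter.1 hx).2)
      (fun X hX => Finset.mem_filter.2 ⟨Finset.mem_univ _, (m2 X (hU X hX)).symm ▸ hX⟩)
      (fun x _ => m3 x) (fun X hX => m2 X (hU X hX)) fun _ _ => rfl
  have h := core (P := fun x => S x ∈ A) (fun x y hx hy => ?_) (fun i => ?_) ?_
  · rcases h with h | ⟨i, h⟩ | ⟨i, j, hij, h⟩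
    · refine Or.inl (Finset.ext fun X => ⟨fun hX => Finset.mem_powerset.2 (hU X hX), fun hX => ?_⟩)
      exact m2 X (Finset.mem_powerset.1 hX) ▸ h (T X)
    · refine Or.inr (Or.inl ⟨e i, e2 i, Finset.ext fun X => ?_⟩)
      rw [Finset.mem_powerset, Finset.subset_erase]
      refine ⟨fun hX => ⟨hU X hX, ?_⟩, fun hX => ?_⟩
      · simpa [T] using (h (T X)).1 ((m2 X (hU X hX)).symm ▸ hX)
      · exact m2 X hX.1 ▸ (h (T X)).2 (by simpa [T] using hX.2)
    · refine Or.inr (Or.inr ⟨e i, e2 i, e j, e2 j, e1.ne hij, Finset.ext fun X => ?_⟩)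
      rw [Finset.mem_filter, Finset.mem_powerset]
      refine ⟨fun hX => ⟨hU X hX, ?_⟩, fun hX => ?_⟩
      · simpa [T] using (h (T X)).1 ((m2 X (hU X hX)).symm ▸ hX)
      · exact m2 X hX.1 ▸ (h (T X)).2 (by simpa [T] using hX.2)
  · convert hc _ hx _ hy using 1
    ext a
    simp only [S, Finset.mem_image, Finset.mem_union, Finset.mem_filter, Finset.mem_univ, true_and,
      Bool.or_eq_true, or_and_right, exists_or]
  · have h1 := sm fun X => 1 - 2 * if e i ∈ X then 1 else 0
    have h2 : cc (ind fun x => S x ∈ A) i =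
        ∑ x, ind (fun x => S x ∈ A) x * (1 - 2 * if e i ∈ S x then 1 else 0) :=
      Finset.sum_congr rfl fun x _ => by
        simp only [m1]
        cases x i <;> simp [sg]
    have h3 : (2 * (A.filter (fun X => e i ∈ X)).card : ℤ) ≤ A.card := by exact_mod_cast hf (e i)
    rw [h2, h1, Finset.sum_sub_distrib, ← Finset.mul_sum, Finset.sum_boole]
    simpa using h3
  · have h1 := sm fun _ => 1
    simp only [mul_one, Finset.sum_const, nsmul_eq_mul] at h1
    rw [h1]
    exact_mod_cast hd

end Pool.Agent.Results.MP_163ab5_co.DenseTight
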