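import Mathlib
import Pool.Agent.MP_163ab5_co.Gap

set_option autoImplicit false

namespace Pool.Agent.Results.MP_163ab5_co.DisjointGap

open Pool.Agent.MP_163ab5_co

/-- A union-closed family with `d ≥ 1` pairwise disjoint nonempty members, fewer than `2 ^ (d + 1)`
members and no point of the `d` members in more than half of the family consists exactly of the
`2 ^ d` unions of these members. -/
theorem result (A : Finset (Finset ℕ)) (hc : ∀ X ∈ A, ∀ Y ∈ A, X ∪ Y ∈ A)
    (d : ℕ) (hd : 1 ≤ d) (C : Fin d → Finset ℕ) (hC : ∀ i, C i ∈ A) (hne : ∀ i, (C i).Nonempty)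
    (hdis : ∀ i j, i ≠ j → Disjoint (C i) (C j)) (hN : A.card < 2 ^ (d + 1))
    (hf : ∀ i, ∀ z ∈ C i, 2 * (A.filter (fun X => z ∈ X)).card ≤ A.card) :
    A.card = 2 ^ d ∧ ∀ X, X ∈ A ↔ ∃ T : Finset (Fin d), X = T.biUnion C := by
  have h := Gap.main hd A hc hC hne hdis hN hf
  refine ⟨by rw [h, Gap.card_BB hdis hne], fun X => ?_⟩
  rw [h, Gap.BB, Finset.mem_image]
  simp [eq_comm]

end Pool.Agent.Results.MP_163ab5_co.DisjointGap
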